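import Pool.Agent.MP_08d8de_an.Disp2.Final2

set_option autoImplicit false

/-! The interior (local in `x`) regularity estimate for the non-cutoff Boltzmann equation fails,
for hard and for soft potentials: in dimension `d = 2`, for all `s > 0` and `γ` with
`γ + 2 s ≥ 0` and `γ + 4 s < 1`, for every admissible angular kernel and every weight exponent
`q > 6`, already for the function itself (`k = 0`). -/

namespace Pool.Agent.Results.MP_08d8de_an.InteriorEstimateFailsHard

open Pool.Agent.Boltzmann2

/-- Disproof of the interior estimate, hard and soft potentials. For all `s > 0` and `γ` with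
`γ + 2s ≥ 0` and `γ + 4s < 1`, admissible angular kernels exist, and for every one of them and
every `q > 6` the estimate of the question fails for `k = 0`: there are bounds `m₀ > 0`, `M₀`,
`E₀`, `H₀` (and `N_r`) for which `(1+|v|)^q f` is not bounded on `(-1/2,0] × B_{1/2} × ℝ²`
uniformly over the classical solutions `f` satisfying them. It fails even if the constant may
depend on all `N_r` also when `γ > 0`. -/
theorem result (s γ : ℝ) (hs : 0 < s) (hγ : 0 ≤ γ + 2 * s) (hγs : γ + 4 * s < 1) :
    (∃ c b, Admissible s γ c b) ∧
    ∀ c b, Admissible s γ c b → ∀ q : ℝ, 6 < q →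
      ¬ InteriorEstimate γ b 0 q ∧ ¬ InteriorEstimateN γ b 0 q := by
  refine ⟨⟨1, _, BoltzDisp.model_admissible2 hs hγ hγs⟩, fun c b hadm q hq => ?_⟩
  have h := BoltzDisp.not_interior2 hγs hadm hq
  exact ⟨fun hI => h (BoltzDisp.estimateN_of_interior hI), h⟩

end Pool.Agent.Results.MP_08d8de_an.InteriorEstimateFailsHard
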